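import Mathlib

/-!
# An evilly normal pair whose kernel contains an invertible dicot

Let `u = {0, * | 0}` and `v = {0, u, u + * | u}`. Let `A` consist of the sums of copies of `v`, `u`
and `*`, and let `K` consist of the elements of `A` that are not sums of copies of `u` and `*`
alone. Then `(A, K)` is evilly normal, and `v`, which lies in `K`, is invertible modulo the dicots.
-/

namespace Pool.Agent.Results.MP_541980_co.InvertibleInKernel

/-- Short partizan games. In the game `mk n opt` the player `p` (`true` is Left, `false` is Right)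
has the options `opt p i` for `i < n p`. -/
inductive Game : Type
  | mk (n : Bool → ℕ) (opt : (p : Bool) → Fin (n p) → Game) : Game

/-- `Opt p G G'`: the game `G'` is an option of the player `p` in `G`. -/
def Opt (p : Bool) : Game → Game → Prop
  | .mk _ opt, G' => ∃ i, opt p i = G'

/-- Two games are identical (the same form) if each option of a player in one of them is identical
to an option of the same player in the other one. -/
def Ident : Game → Game → Prop
  | .mk _ opt => fun
    | .mk _ opt' => ∀ p, (∀ i, ∃ j, Ident (opt p i) (opt' p j)) ∧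
        ∀ j, ∃ i, Ident (opt p i) (opt' p j)

/-- The game `0 = { | }`. -/
def zero : Game := .mk (fun _ => 0) fun _ i => i.elim0

/-- The game `* = {0 | 0}`. -/
def star : Game := .mk (fun _ => 1) fun _ _ => zero

/-- The sum of the game with options `G p i`, `i < n p`, and a game, given the sums `ih p i` of
`G p i` with games. -/
def addMk (n : Bool → ℕ) (ih : (p : Bool) → Fin (n p) → Game → Game) : Game → Game
  | .mk n' opt' => .mk (fun p => n p + n' p) fun p k =>
      if h : k.val < n p then ih p ⟨k.val, h⟩ (.mk n' opt')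
      else addMk n ih (opt' p ⟨k.val - n p, by omega⟩)

/-- The disjunctive sum. -/
def add : Game → Game → Game
  | .mk n opt => addMk n fun p i => add (opt p i)

/-- `Wins mis G p`: the player `p`, moving first in `G`, wins under normal play (`mis = false`) or
misere play (`mis = true`). -/
def Wins (mis : Bool) : Game → Bool → Prop
  | .mk n opt, p => (mis = true ∧ n p = 0) ∨ ∃ i : Fin (n p), ¬ Wins mis (opt p i) (!p)

/-- The four outcome classes. -/
inductive Outcome
  | L
  | R
  | N
  | P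

open Classical in
/-- The outcome of a game under normal play (`mis = false`) or misere play (`mis = true`). -/
noncomputable def outcome (mis : Bool) (G : Game) : Outcome :=
  if Wins mis G true then (if Wins mis G false then .N else .L)
  else (if Wins mis G false then .R else .P)

/-- A game is dicotic if in each of its positions either both players or none of them have an
option. -/
def Dicotic : Game → Prop
  | .mk n opt => (n true = 0 ↔ n false = 0) ∧ ∀ p i, Dicotic (opt p i)

/-- `G` and `H` are equal modulo the set `U` of games (misere play). -/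
def EquivMod (U : Set Game) (G H : Game) : Prop :=
  ∀ X ∈ U, outcome true (add G X) = outcome true (add H X)

/-- `G` is a dicotic game that is invertible modulo the set of dicotic games. -/
def InvertibleDicot (G : Game) : Prop :=
  Dicotic G ∧ ∃ H, Dicotic H ∧ EquivMod {X | Dicotic X} (add G H) zero

/-- `K` is an evil kernel of `A`. -/
def EvilKernel (A K : Set Game) : Prop :=
  K ⊆ A ∧ (∀ G ∈ K, outcome false G = outcome true G) ∧
    ∀ G ∈ A \ K, outcome false G = outcome true (add G star) ∧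
      outcome false (add G star) = outcome true G

/-- The pair `(A, K)` is evilly normal. -/
def EvillyNormal (A K : Set Game) : Prop :=
  (∀ G ∈ A, Dicotic G) ∧
  (∀ G ∈ A, ∀ H ∈ A, add G H ∈ A) ∧
  (∀ G ∈ A, ∀ p G', Opt p G G' → G' ∈ A) ∧
  EvilKernel A K ∧
  ∀ G ∈ A, ∀ H ∈ A, add G H ∉ K ↔ G ∉ K ∧ H ∉ K

/-- A set of games that contains with each game the games identical to it. -/
def IsSetOfForms (A : Set Game) : Prop := ∀ G H, Ident G H → G ∈ A → H ∈ A

/-! ### Basic facts -/

theorem opt_add (p : Bool) (G H K : Game) :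
    Opt p (add G H) K ↔
      (∃ G', Opt p G G' ∧ K = add G' H) ∨ ∃ H', Opt p H H' ∧ K = add G H' := by
  rcases G with ⟨n, f⟩
  rcases H with ⟨m, g⟩
  simp only [Opt, add, addMk]
  constructor
  · rintro ⟨k, hk⟩
    by_cases h : k.val < n p
    · left
      rw [dif_pos h] at hk
      exact ⟨_, ⟨⟨k.val, h⟩, rfl⟩, hk.symm⟩
    · right
      rw [dif_neg h] at hk
      exact ⟨_, ⟨⟨k.val - n p, by omega⟩, rfl⟩, hk.symm⟩
  · rintro (⟨_, ⟨i, rfl⟩, rfl⟩ | ⟨_, ⟨j, rfl⟩, rfl⟩)
    · refine ⟨⟨i.val, by omega⟩, ?_⟩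
      rw [dif_pos i.isLt]
    · refine ⟨⟨n p + j.val, by omega⟩, ?_⟩
      rw [dif_neg (by simp)]
      congr 2
      apply Fin.ext
      simp

theorem ind {P : Game → Prop} (h : ∀ G, (∀ p G', Opt p G G' → P G') → P G) : ∀ G, P G := by
  intro G
  induction G with
  | mk n f ih =>
    apply h
    rintro p _ ⟨i, rfl⟩
    exact ih p i

theorem wins_iff (mis : Bool) (G : Game) (p : Bool) :
    Wins mis G p ↔ (mis = true ∧ ¬ ∃ G', Opt p G G') ∨ ∃ G', Opt p G G' ∧ ¬ Wins mis G' (!p) := by
  rcases G with ⟨n, f⟩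
  simp only [Opt, Wins]
  refine or_congr (and_congr Iff.rfl ?_) ?_
  · constructor
    · rintro h ⟨_, i, _⟩
      have := i.isLt
      omega
    · intro h
      by_contra h0
      exact h ⟨_, ⟨0, by omega⟩, rfl⟩
  · constructor
    · rintro ⟨i, hi⟩
      exact ⟨_, ⟨i, rfl⟩, hi⟩
    · rintro ⟨_, ⟨i, rfl⟩, hi⟩
      exact ⟨i, hi⟩

theorem dicotic_iff (G : Game) :
    Dicotic G ↔ ((∃ G', Opt true G G') ↔ ∃ G', Opt false G G') ∧
      ∀ p G', Opt p G G' → Dicotic G' := by
  rcases G with ⟨n, f⟩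
  simp only [Opt, Dicotic]
  have key : ∀ p, (∃ G', ∃ i : Fin (n p), f p i = G') ↔ ¬ n p = 0 := by
    intro p
    constructor
    · rintro ⟨_, i, _⟩ h
      have := i.isLt
      omega
    · intro h
      exact ⟨_, ⟨0, by omega⟩, rfl⟩
  rw [key, key, not_iff_not]
  refine and_congr Iff.rfl ?_
  constructor
  · rintro h p _ ⟨i, rfl⟩
    exact h p i
  · intro h p i
    exact h p _ ⟨i, rfl⟩

theorem ident_iff (G H : Game) :
    Ident G H ↔ ∀ p, (∀ G', Opt p G G' → ∃ H', Opt p H H' ∧ Ident G' H') ∧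
      ∀ H', Opt p H H' → ∃ G', Opt p G G' ∧ Ident G' H' := by
  rcases G with ⟨n, f⟩
  rcases H with ⟨m, g⟩
  simp only [Opt, Ident]
  refine forall_congr' fun p => and_congr ?_ ?_
  · constructor
    · rintro h _ ⟨i, rfl⟩
      obtain ⟨j, hj⟩ := h i
      exact ⟨_, ⟨j, rfl⟩, hj⟩
    · intro h i
      obtain ⟨_, ⟨j, rfl⟩, hj⟩ := h _ ⟨i, rfl⟩
      exact ⟨j, hj⟩
  · constructor
    · rintro h _ ⟨i, rfl⟩
      obtain ⟨j, hj⟩ := h i
      exact ⟨_, ⟨j, rfl⟩, hj⟩
    · intro h i
      obtain ⟨_, ⟨j, rfl⟩, hj⟩ := h _ ⟨i, rfl⟩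
      exact ⟨j, hj⟩

/-! ### The sums of copies of `v`, `u` and `*` -/

/-- The moves of the player `p` from the sum of `k` copies of `v`, `n` copies of `u` and `m`
copies of `*`. -/
def Mv (p : Bool) (k n m k' n' m' : ℕ) : Prop :=
  (k = k' + 1 ∧ n' = n + 1 ∧ m' = m) ∨ (k = k' ∧ n = n' + 1 ∧ m = m') ∨
  (k = k' ∧ n = n' ∧ m = m' + 1) ∨
  (p = true ∧ ((k = k' + 1 ∧ n' = n ∧ m' = m) ∨ (k = k' + 1 ∧ n' = n + 1 ∧ m' = m + 1) ∨
    (k = k' ∧ n = n' + 1 ∧ m' = m + 1)))

/-- `Is G k n m`: the game `G` is the sum of `k` copies of `v`, `n` copies of `u` and `m` copies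
of `*`. -/
def Is : Game → ℕ → ℕ → ℕ → Prop
  | .mk _ opt, k, n, m => ∀ p, (∀ i, ∃ k' n' m', Mv p k n m k' n' m' ∧ Is (opt p i) k' n' m') ∧
      ∀ k' n' m', Mv p k n m k' n' m' → ∃ i, Is (opt p i) k' n' m'

theorem is_iff (G : Game) (k n m : ℕ) :
    Is G k n m ↔ ∀ p, (∀ G', Opt p G G' → ∃ k' n' m', Mv p k n m k' n' m' ∧ Is G' k' n' m') ∧
      ∀ k' n' m', Mv p k n m k' n' m' → ∃ G', Opt p G G' ∧ Is G' k' n' m' := by
  rcases G with ⟨c, f⟩
  simp only [Opt, Is]
  refine forall_congr' fun p => and_congr ?_ ?_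
  · constructor
    · rintro h _ ⟨i, rfl⟩
      exact h i
    · intro h i
      exact h _ ⟨i, rfl⟩
  · constructor
    · intro h k' n' m' hm
      obtain ⟨i, hi⟩ := h k' n' m' hm
      exact ⟨_, ⟨i, rfl⟩, hi⟩
    · intro h k' n' m' hm
      obtain ⟨_, ⟨i, rfl⟩, hi⟩ := h k' n' m' hm
      exact ⟨i, hi⟩

theorem is_ident : ∀ G H, Ident G H → ∀ k n m, Is G k n m → Is H k n m := by
  intro G
  induction G using ind with
  | h G ih =>
    intro H hI k n m h
    rw [is_iff] at h ⊢
    rw [ident_iff] at hI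
    intro p
    refine ⟨?_, ?_⟩
    · intro H' hH'
      obtain ⟨G', hG', hI'⟩ := (hI p).2 H' hH'
      obtain ⟨k', n', m', hm, hi⟩ := (h p).1 G' hG'
      exact ⟨k', n', m', hm, ih p G' hG' H' hI' _ _ _ hi⟩
    · intro k' n' m' hm
      obtain ⟨G', hG', hi⟩ := (h p).2 k' n' m' hm
      obtain ⟨H', hH', hI'⟩ := (hI p).1 G' hG'
      exact ⟨H', hH', ih p G' hG' H' hI' _ _ _ hi⟩

theorem mv_add_left {p : Bool} {k n m k' n' m' : ℕ} (h : Mv p k n m k' n' m') (a b c : ℕ) :
    Mv p (k + a) (n + b) (m + c) (k' + a) (n' + b) (m' + c) := by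
  unfold Mv at *
  rcases h with h | h | h | ⟨hp, h | h | h⟩
  · exact Or.inl (by omega)
  · exact Or.inr (Or.inl (by omega))
  · exact Or.inr (Or.inr (Or.inl (by omega)))
  · exact Or.inr (Or.inr (Or.inr ⟨hp, by omega⟩))
  · exact Or.inr (Or.inr (Or.inr ⟨hp, by omega⟩))
  · exact Or.inr (Or.inr (Or.inr ⟨hp, by omega⟩))

theorem mv_add_right {p : Bool} {k n m k' n' m' : ℕ} (h : Mv p k n m k' n' m') (a b c : ℕ) :
    Mv p (a + k) (b + n) (c + m) (a + k') (b + n') (c + m') := by
  have := mv_add_left h a b c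
  rwa [add_comm k, add_comm n, add_comm m, add_comm k', add_comm n', add_comm m'] at this

theorem mv_of_add {p : Bool} {k n m a b c x y z : ℕ} (h : Mv p (k + a) (n + b) (m + c) x y z) :
    (∃ k' n' m', Mv p k n m k' n' m' ∧ x = k' + a ∧ y = n' + b ∧ z = m' + c) ∨
    ∃ a' b' c', Mv p a b c a' b' c' ∧ x = k + a' ∧ y = n + b' ∧ z = m + c' := by
  unfold Mv at *
  rcases h with h | h | h | ⟨hp, h | h | h⟩
  · by_cases h0 : k = 0
    · exact Or.inr ⟨x - k, y - n, z - m, Or.inl (by omega), by omega, by omega, by omega⟩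
    · exact Or.inl ⟨x - a, y - b, z - c, Or.inl (by omega), by omega, by omega, by omega⟩
  · by_cases h0 : n = 0
    · exact Or.inr ⟨x - k, y - n, z - m, Or.inr (Or.inl (by omega)), by omega, by omega, by omega⟩
    · exact Or.inl ⟨x - a, y - b, z - c, Or.inr (Or.inl (by omega)), by omega, by omega, by omega⟩
  · by_cases h0 : m = 0
    · exact Or.inr ⟨x - k, y - n, z - m, Or.inr (Or.inr (Or.inl (by omega))),
        by omega, by omega, by omega⟩
    · exact Or.inl ⟨x - a, y - b, z - c, Or.inr (Or.inr (Or.inl (by omega))),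
        by omega, by omega, by omega⟩
  · by_cases h0 : k = 0
    · exact Or.inr ⟨x - k, y - n, z - m, Or.inr (Or.inr (Or.inr ⟨hp, by omega⟩)),
        by omega, by omega, by omega⟩
    · exact Or.inl ⟨x - a, y - b, z - c, Or.inr (Or.inr (Or.inr ⟨hp, by omega⟩)),
        by omega, by omega, by omega⟩
  · by_cases h0 : k = 0
    · exact Or.inr ⟨x - k, y - n, z - m, Or.inr (Or.inr (Or.inr ⟨hp, by omega⟩)),
        by omega, by omega, by omega⟩
    · exact Or.inl ⟨x - a, y - b, z - c, Or.inr (Or.inr (Or.inr ⟨hp, by omega⟩)),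
        by omega, by omega, by omega⟩
  · by_cases h0 : n = 0
    · exact Or.inr ⟨x - k, y - n, z - m, Or.inr (Or.inr (Or.inr ⟨hp, by omega⟩)),
        by omega, by omega, by omega⟩
    · exact Or.inl ⟨x - a, y - b, z - c, Or.inr (Or.inr (Or.inr ⟨hp, by omega⟩)),
        by omega, by omega, by omega⟩

theorem is_add : ∀ G H k n m a b c, Is G k n m → Is H a b c →
    Is (add G H) (k + a) (n + b) (m + c) := by
  intro G
  induction G using ind with
  | h G ihG =>
    intro H
    induction H using ind with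
    | h H ihH =>
      intro k n m a b c hG hH
      have hG' := (is_iff G k n m).1 hG
      have hH' := (is_iff H a b c).1 hH
      rw [is_iff]
      intro p
      refine ⟨?_, ?_⟩
      · intro K hK
        rw [opt_add] at hK
        rcases hK with ⟨G', hO, rfl⟩ | ⟨H', hO, rfl⟩
        · obtain ⟨k', n', m', hm, hi⟩ := (hG' p).1 G' hO
          exact ⟨k' + a, n' + b, m' + c, mv_add_left hm a b c,
            ihG p G' hO H _ _ _ _ _ _ hi hH⟩
        · obtain ⟨a', b', c', hm, hi⟩ := (hH' p).1 H' hO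
          exact ⟨k + a', n + b', m + c', mv_add_right hm k n m,
            ihH p H' hO _ _ _ _ _ _ hG hi⟩
      · intro x y z hm
        rcases mv_of_add hm with ⟨k', n', m', hm', rfl, rfl, rfl⟩ | ⟨a', b', c', hm', rfl, rfl, rfl⟩
        · obtain ⟨G', hO, hi⟩ := (hG' p).2 _ _ _ hm'
          exact ⟨add G' H, (opt_add _ _ _ _).2 (Or.inl ⟨G', hO, rfl⟩),
            ihG p G' hO H _ _ _ _ _ _ hi hH⟩
        · obtain ⟨H', hO, hi⟩ := (hH' p).2 _ _ _ hm'
          exact ⟨add G H', (opt_add _ _ _ _).2 (Or.inr ⟨H', hO, rfl⟩),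
            ihH p H' hO _ _ _ _ _ _ hG hi⟩

theorem is_add_comm : ∀ G H k n m, Is (add G H) k n m → Is (add H G) k n m := by
  intro G
  induction G using ind with
  | h G ihG =>
    intro H
    induction H using ind with
    | h H ihH =>
      intro k n m h
      rw [is_iff] at h ⊢
      intro p
      refine ⟨?_, ?_⟩
      · intro K hK
        rw [opt_add] at hK
        rcases hK with ⟨H', hO, rfl⟩ | ⟨G', hO, rfl⟩
        · obtain ⟨k', n', m', hm, hi⟩ := (h p).1 _ ((opt_add _ _ _ _).2 (Or.inr ⟨H', hO, rfl⟩))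
          exact ⟨k', n', m', hm, ihH p H' hO _ _ _ hi⟩
        · obtain ⟨k', n', m', hm, hi⟩ := (h p).1 _ ((opt_add _ _ _ _).2 (Or.inl ⟨G', hO, rfl⟩))
          exact ⟨k', n', m', hm, ihG p G' hO _ _ _ _ hi⟩
      · intro k' n' m' hm
        obtain ⟨K, hK, hi⟩ := (h p).2 _ _ _ hm
        rw [opt_add] at hK
        rcases hK with ⟨G', hO, rfl⟩ | ⟨H', hO, rfl⟩
        · exact ⟨add H G', (opt_add _ _ _ _).2 (Or.inr ⟨G', hO, rfl⟩), ihG p G' hO _ _ _ _ hi⟩
        · exact ⟨add H' G, (opt_add _ _ _ _).2 (Or.inl ⟨H', hO, rfl⟩), ihH p H' hO _ _ _ hi⟩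

theorem is_of_add_empty (H : Game) (hH : ∀ p H', ¬ Opt p H H') :
    ∀ G k n m, Is (add G H) k n m → Is G k n m := by
  intro G
  induction G using ind with
  | h G ih =>
    intro k n m h
    rw [is_iff] at h ⊢
    intro p
    refine ⟨?_, ?_⟩
    · intro G' hO
      obtain ⟨k', n', m', hm, hi⟩ := (h p).1 _ ((opt_add _ _ _ _).2 (Or.inl ⟨G', hO, rfl⟩))
      exact ⟨k', n', m', hm, ih p G' hO _ _ _ hi⟩
    · intro k' n' m' hm
      obtain ⟨K, hK, hi⟩ := (h p).2 _ _ _ hm
      rw [opt_add] at hK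
      rcases hK with ⟨G', hO, rfl⟩ | ⟨H', hO, rfl⟩
      · exact ⟨G', hO, ih p G' hO _ _ _ hi⟩
      · exact absurd hO (hH p H')

/-- `G` is a sum of copies of `u` and `*`. -/
def InS (G : Game) : Prop := ∃ n m, Is G 0 n m

theorem inS_opt {G G' : Game} {p : Bool} (h : InS G) (hO : Opt p G G') : InS G' := by
  obtain ⟨n, m, h⟩ := h
  rw [is_iff] at h
  obtain ⟨k', n', m', hm, hi⟩ := (h p).1 G' hO
  have : k' = 0 := by
    unfold Mv at hm
    rcases hm with h | h | h | ⟨hp, h | h | h⟩ <;> omega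
  subst this
  exact ⟨n', m', hi⟩

theorem inS_left (G : Game) : ∀ H, InS (add G H) → InS G := by
  intro H
  induction H using ind with
  | h H ih =>
    intro h
    by_cases hH : ∃ p H', Opt p H H'
    · obtain ⟨p, H', hO⟩ := hH
      exact ih p H' hO (inS_opt h ((opt_add _ _ _ _).2 (Or.inr ⟨H', hO, rfl⟩)))
    · push Not at hH
      obtain ⟨n, m, h⟩ := h
      exact ⟨n, m, is_of_add_empty H hH G _ _ _ h⟩

theorem inS_right (G H : Game) (h : InS (add G H)) : InS H := by
  obtain ⟨n, m, h⟩ := h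
  exact inS_left H G ⟨n, m, is_add_comm _ _ _ _ _ h⟩

theorem inS_add {G H : Game} (hG : InS G) (hH : InS H) : InS (add G H) := by
  obtain ⟨n, m, hG⟩ := hG
  obtain ⟨n', m', hH⟩ := hH
  exact ⟨n + n', m + m', by simpa using is_add _ _ _ _ _ _ _ _ hG hH⟩

/-! ### The outcomes -/

/-- The player `p`, moving first in the sum of `k` copies of `v`, `n` copies of `u` and `m` copies
of `*`, wins. -/
def W (mis p : Bool) (k n m : ℕ) : Prop :=
  if p = true then 1 ≤ 2 * k + n ∨ (m + mis.toNat) % 2 = 1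
  else 2 * k + n ≤ 1 ∧ (2 * k + n + m + mis.toNat) % 2 = 1

theorem W_true (mis : Bool) (k n m : ℕ) :
    W mis true k n m ↔ 1 ≤ 2 * k + n ∨ (m + mis.toNat) % 2 = 1 := by simp [W]

theorem W_false (mis : Bool) (k n m : ℕ) :
    W mis false k n m ↔ 2 * k + n ≤ 1 ∧ (2 * k + n + m + mis.toNat) % 2 = 1 := by simp [W]

theorem mis_cases (mis : Bool) : (mis = true ∧ mis.toNat = 1) ∨ (mis = false ∧ mis.toNat = 0) := by
  cases mis <;> simp

theorem ne_of_mv {p : Bool} {k n m k' n' m' : ℕ} (h : Mv p k n m k' n' m') : k + n + m ≠ 0 := by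
  unfold Mv at h
  rcases h with h' | h' | h' | ⟨hp, h' | h' | h'⟩ <;> omega

theorem W_rec (mis p : Bool) (k n m : ℕ) :
    W mis p k n m ↔ (mis = true ∧ ¬ ∃ k' n' m', Mv p k n m k' n' m') ∨
      ∃ k' n' m', Mv p k n m k' n' m' ∧ ¬ W mis (!p) k' n' m' := by
  have hmis := mis_cases mis
  have hmt : mis.toNat = 1 → mis = true := by
    rcases hmis with h | h
    · exact fun _ => h.1
    · intro h'
      omega
  have htm : mis = true → mis.toNat = 1 := by
    rintro rfl
    rfl
  cases p with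
  | true =>
    simp only [Bool.not_true, W_true, W_false]
    constructor
    · intro h
      by_cases h3 : 3 ≤ 2 * k + n
      · right
        by_cases hk : k = 0
        · exact ⟨k, n - 1, m, Or.inr (Or.inl (by omega)), by omega⟩
        · exact ⟨k - 1, n + 1, m, Or.inl (by omega), by omega⟩
      · by_cases h2 : 2 * k + n = 2
        · right
          by_cases hk : k = 0
          · by_cases hm : (1 + m + mis.toNat) % 2 = 0
            · exact ⟨0, n - 1, m, Or.inr (Or.inl (by omega)), by omega⟩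
            · exact ⟨0, n - 1, m + 1, Or.inr (Or.inr (Or.inr ⟨rfl, by omega⟩)), by omega⟩
          · by_cases hm : (1 + m + mis.toNat) % 2 = 0
            · exact ⟨0, n + 1, m, Or.inl (by omega), by omega⟩
            · exact ⟨0, n + 1, m + 1, Or.inr (Or.inr (Or.inr ⟨rfl, by omega⟩)), by omega⟩
        · by_cases h1 : 2 * k + n = 1
          · right
            by_cases hm : (m + mis.toNat) % 2 = 0
            · exact ⟨0, 0, m, Or.inr (Or.inl (by omega)), by omega⟩
            · exact ⟨0, 0, m + 1, Or.inr (Or.inr (Or.inr ⟨rfl, by omega⟩)), by omega⟩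
          · by_cases hm : m = 0
            · left
              refine ⟨hmt (by omega), ?_⟩
              rintro ⟨k', n', m', h'⟩
              have := ne_of_mv h'
              omega
            · right
              exact ⟨0, 0, m - 1, Or.inr (Or.inr (Or.inl (by omega))), by omega⟩
    · rintro (⟨hm, h⟩ | ⟨k', n', m', hm, h⟩)
      · have hmis1 := htm hm
        by_contra hc
        apply h
        by_cases hm0 : m = 0
        · omega
        · exact ⟨0, 0, m - 1, Or.inr (Or.inr (Or.inl (by omega)))⟩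
      · unfold Mv at hm
        rcases hm with h' | h' | h' | ⟨hp, h' | h' | h'⟩ <;> omega
  | false =>
    simp only [Bool.not_false, W_true, W_false]
    constructor
    · intro h
      by_cases h1 : 2 * k + n = 1
      · right
        exact ⟨0, 0, m, Or.inr (Or.inl (by omega)), by omega⟩
      · by_cases hm : m = 0
        · left
          refine ⟨hmt (by omega), ?_⟩
          rintro ⟨k', n', m', h'⟩
          have := ne_of_mv h'
          omega
        · right
          exact ⟨0, 0, m - 1, Or.inr (Or.inr (Or.inl (by omega))), by omega⟩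
    · rintro (⟨hm, h⟩ | ⟨k', n', m', hm, h⟩)
      · have hmis1 := htm hm
        by_contra hc
        apply h
        by_cases hk : k = 0
        · by_cases hn : n = 0
          · by_cases hm0 : m = 0
            · omega
            · exact ⟨0, 0, m - 1, Or.inr (Or.inr (Or.inl (by omega)))⟩
          · exact ⟨k, n - 1, m, Or.inr (Or.inl (by omega))⟩
        · exact ⟨k - 1, n + 1, m, Or.inl (by omega)⟩
      · unfold Mv at hm
        rcases hm with h' | h' | h' | ⟨hp, h' | h' | h'⟩
        · omega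
        · omega
        · omega
        · simp at hp
        · simp at hp
        · simp at hp

theorem wins_is (mis : Bool) : ∀ G p k n m, Is G k n m → (Wins mis G p ↔ W mis p k n m) := by
  intro G
  induction G using ind with
  | h G ih =>
    intro p k n m h
    rw [is_iff] at h
    rw [wins_iff, W_rec]
    refine or_congr (and_congr Iff.rfl (not_congr ?_)) ?_
    · constructor
      · rintro ⟨G', hO⟩
        obtain ⟨k', n', m', hm, -⟩ := (h p).1 G' hO
        exact ⟨k', n', m', hm⟩
      · rintro ⟨k', n', m', hm⟩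
        obtain ⟨G', hO, -⟩ := (h p).2 _ _ _ hm
        exact ⟨G', hO⟩
    · constructor
      · rintro ⟨G', hO, hw⟩
        obtain ⟨k', n', m', hm, hi⟩ := (h p).1 G' hO
        exact ⟨k', n', m', hm, by rwa [← ih p G' hO _ _ _ _ hi]⟩
      · rintro ⟨k', n', m', hm, hw⟩
        obtain ⟨G', hO, hi⟩ := (h p).2 _ _ _ hm
        exact ⟨G', hO, by rwa [ih p G' hO _ _ _ _ hi]⟩

theorem outcome_congr {mis mis' : Bool} {G H : Game}
    (h : ∀ p, Wins mis G p ↔ Wins mis' H p) : outcome mis G = outcome mis' H := by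
  have h1 : Wins mis G true = Wins mis' H true := propext (h true)
  have h2 : Wins mis G false = Wins mis' H false := propext (h false)
  unfold outcome
  rw [h1, h2]

theorem exists_mv (p : Bool) (k n m : ℕ) (h : k + n + m ≠ 0) :
    ∃ k' n' m', Mv p k n m k' n' m' := by
  by_cases hk : k = 0
  · by_cases hn : n = 0
    · exact ⟨0, 0, m - 1, Or.inr (Or.inr (Or.inl (by omega)))⟩
    · exact ⟨k, n - 1, m, Or.inr (Or.inl (by omega))⟩
  · exact ⟨k - 1, n + 1, m, Or.inl (by omega)⟩

theorem dicotic_is : ∀ G k n m, Is G k n m → Dicotic G := by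
  intro G
  induction G using ind with
  | h G ih =>
    intro k n m h
    rw [is_iff] at h
    rw [dicotic_iff]
    refine ⟨?_, ?_⟩
    · have key : ∀ p, (∃ G', Opt p G G') ↔ k + n + m ≠ 0 := by
        intro p
        constructor
        · rintro ⟨G', hO⟩
          obtain ⟨k', n', m', hm, -⟩ := (h p).1 G' hO
          exact ne_of_mv hm
        · intro h0
          obtain ⟨k', n', m', hm⟩ := exists_mv p k n m h0
          obtain ⟨G', hO, -⟩ := (h p).2 _ _ _ hm
          exact ⟨G', hO⟩
      rw [key, key]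
    · intro p G' hO
      obtain ⟨k', n', m', -, hi⟩ := (h p).1 G' hO
      exact ih p G' hO _ _ _ hi

/-! ### The games `u` and `v` -/

/-- The game `u = {0, * | 0}`. -/
def u : Game :=
  .mk (fun p => if p then 2 else 1) fun _ i => if i.val = 0 then zero else star

/-- The game `v = {0, u, u + * | u}`. -/
def v : Game :=
  .mk (fun p => if p then 3 else 1) fun p i =>
    if p = true ∧ i.val = 0 then zero
    else if i.val ≤ 1 then u else add u star

theorem is_zero : Is zero 0 0 0 := by
  rw [is_iff]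
  intro p
  refine ⟨?_, ?_⟩
  · rintro G' ⟨i, -⟩
    exact i.elim0
  · intro k' n' m' h
    exact absurd rfl (ne_of_mv h)

theorem is_star : Is star 0 0 1 := by
  rw [is_iff]
  intro p
  refine ⟨?_, ?_⟩
  · rintro G' ⟨i, rfl⟩
    exact ⟨0, 0, 0, Or.inr (Or.inr (Or.inl (by omega))), is_zero⟩
  · intro k' n' m' h
    have : k' = 0 ∧ n' = 0 ∧ m' = 0 := by
      unfold Mv at h
      rcases h with h' | h' | h' | ⟨hp, h' | h' | h'⟩ <;> omega
    obtain ⟨rfl, rfl, rfl⟩ := this
    exact ⟨zero, ⟨0, rfl⟩, is_zero⟩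

theorem opt_u (p : Bool) (G : Game) : Opt p u G ↔ G = zero ∨ (p = true ∧ G = star) := by
  cases p with
  | true =>
    simp only [Opt, u]
    constructor
    · rintro ⟨i, rfl⟩
      by_cases h : i.val = 0
      · left; simp [h]
      · right; simp [h]
    · rintro (rfl | ⟨-, rfl⟩)
      · exact ⟨⟨0, by decide⟩, rfl⟩
      · exact ⟨⟨1, by decide⟩, rfl⟩
  | false =>
    simp only [Opt, u]
    constructor
    · rintro ⟨i, rfl⟩
      left
      simp
    · rintro (rfl | ⟨h, -⟩)
      · exact ⟨⟨0, by decide⟩, rfl⟩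
      · simp at h

theorem opt_v (p : Bool) (G : Game) :
    Opt p v G ↔ G = u ∨ (p = true ∧ (G = zero ∨ G = add u star)) := by
  cases p with
  | true =>
    simp only [Opt, v]
    constructor
    · rintro ⟨i, rfl⟩
      by_cases h : i.val = 0
      · right; simp [h]
      · by_cases h1 : i.val ≤ 1
        · left; simp [h, h1]
        · right; simp [h, h1]
    · rintro (rfl | ⟨-, rfl | rfl⟩)
      · exact ⟨⟨1, by decide⟩, rfl⟩
      · exact ⟨⟨0, by decide⟩, rfl⟩
      · exact ⟨⟨2, by decide⟩, rfl⟩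
  | false =>
    simp only [Opt, v]
    constructor
    · rintro ⟨i, rfl⟩
      left
      simp
    · rintro (rfl | ⟨h, -⟩)
      · exact ⟨⟨0, by decide⟩, rfl⟩
      · simp at h

theorem is_u : Is u 0 1 0 := by
  rw [is_iff]
  intro p
  refine ⟨?_, ?_⟩
  · intro G' hO
    rw [opt_u] at hO
    rcases hO with rfl | ⟨hp, rfl⟩
    · exact ⟨0, 0, 0, Or.inr (Or.inl (by omega)), is_zero⟩
    · exact ⟨0, 0, 1, Or.inr (Or.inr (Or.inr ⟨hp, by omega⟩)), is_star⟩
  · intro k' n' m' h
    unfold Mv at h
    rcases h with h' | h' | h' | ⟨hp, h' | h' | h'⟩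
    · omega
    · obtain ⟨rfl, rfl, rfl⟩ : k' = 0 ∧ n' = 0 ∧ m' = 0 := by omega
      exact ⟨zero, (opt_u _ _).2 (Or.inl rfl), is_zero⟩
    · omega
    · omega
    · omega
    · obtain ⟨rfl, rfl, rfl⟩ : k' = 0 ∧ n' = 0 ∧ m' = 1 := by omega
      exact ⟨star, (opt_u _ _).2 (Or.inr ⟨hp, rfl⟩), is_star⟩

theorem is_v : Is v 1 0 0 := by
  rw [is_iff]
  intro p
  have hus : Is (add u star) 0 1 1 := by simpa using is_add _ _ _ _ _ _ _ _ is_u is_star
  refine ⟨?_, ?_⟩
  · intro G' hO
    rw [opt_v] at hO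
    rcases hO with rfl | ⟨hp, rfl | rfl⟩
    · exact ⟨0, 1, 0, Or.inl (by omega), is_u⟩
    · exact ⟨0, 0, 0, Or.inr (Or.inr (Or.inr ⟨hp, by omega⟩)), is_zero⟩
    · exact ⟨0, 1, 1, Or.inr (Or.inr (Or.inr ⟨hp, by omega⟩)), hus⟩
  · intro k' n' m' h
    unfold Mv at h
    rcases h with h' | h' | h' | ⟨hp, h' | h' | h'⟩
    · obtain ⟨rfl, rfl, rfl⟩ : k' = 0 ∧ n' = 1 ∧ m' = 0 := by omega
      exact ⟨u, (opt_v _ _).2 (Or.inl rfl), is_u⟩
    · omega
    · omega
    · obtain ⟨rfl, rfl, rfl⟩ : k' = 0 ∧ n' = 0 ∧ m' = 0 := by omega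
      exact ⟨zero, (opt_v _ _).2 (Or.inr ⟨hp, Or.inl rfl⟩), is_zero⟩
    · obtain ⟨rfl, rfl, rfl⟩ : k' = 0 ∧ n' = 1 ∧ m' = 1 := by omega
      exact ⟨_, (opt_v _ _).2 (Or.inr ⟨hp, Or.inr rfl⟩), hus⟩
    · omega

theorem not_inS_v : ¬ InS v := by
  rintro ⟨n, m, h⟩
  rw [is_iff] at h
  obtain ⟨k', n', m', hm, hi⟩ := (h true).1 zero ((opt_v _ _).2 (Or.inr ⟨rfl, Or.inl rfl⟩))
  have h0 : k' + n' + m' = 0 := by
    by_contra hc
    obtain ⟨a, b, c, hm'⟩ := exists_mv true k' n' m' hc
    rw [is_iff] at hi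
    obtain ⟨G', ⟨i, -⟩, -⟩ := (hi true).2 a b c hm'
    exact i.elim0
  have hnm : n + m = 1 := by
    unfold Mv at hm
    rcases hm with h' | h' | h' | ⟨hp, h' | h' | h'⟩ <;> omega
  obtain ⟨a, b, c, hm', hi'⟩ := (h false).1 u ((opt_v _ _).2 (Or.inl rfl))
  have h0' : a + b + c = 0 := by
    unfold Mv at hm'
    rcases hm' with h' | h' | h' | ⟨hp, h' | h' | h'⟩
    · omega
    · omega
    · omega
    · simp at hp
    · simp at hp
    · simp at hp
  rw [is_iff] at hi'
  obtain ⟨x, y, z, hm'', -⟩ := (hi' true).1 zero ((opt_u _ _).2 (Or.inl rfl))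
  exact ne_of_mv hm'' h0'

/-! ### Invertibility -/

/-- The conjugate of a game. -/
def conj : Game → Game
  | .mk n opt => .mk (fun p => n (!p)) fun p i => conj (opt (!p) i)

theorem opt_conj (p : Bool) (G K : Game) :
    Opt p (conj G) K ↔ ∃ G', Opt (!p) G G' ∧ K = conj G' := by
  rcases G with ⟨n, f⟩
  simp only [Opt, conj]
  constructor
  · rintro ⟨i, rfl⟩
    exact ⟨_, ⟨i, rfl⟩, rfl⟩
  · rintro ⟨_, ⟨i, rfl⟩, rfl⟩
    exact ⟨i, rfl⟩

theorem dicotic_conj : ∀ G, Dicotic G → Dicotic (conj G) := by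
  intro G
  induction G with
  | mk n f ih =>
    intro h
    simp only [Dicotic, conj] at h ⊢
    exact ⟨h.1.symm, fun p i => ih _ _ (h.2 _ _)⟩

/-- Deciding who wins. -/
def wins (mis : Bool) : Game → Bool → Bool
  | .mk n opt, p => (mis && decide (n p = 0)) || decide (∃ i : Fin (n p), wins mis (opt p i) (!p) = false)

theorem wins_eq (mis : Bool) : ∀ G p, wins mis G p = true ↔ Wins mis G p := by
  intro G
  induction G with
  | mk n f ih =>
    intro p
    simp only [wins, Wins, Bool.or_eq_true, Bool.and_eq_true, decide_eq_true_eq]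
    refine or_congr Iff.rfl (exists_congr fun i => ?_)
    rw [← ih p i (!p)]
    simp

/-- In each follower `H` of the game, each player wins `H + conj H` moving first. -/
def good : Game → Bool
  | .mk n opt => (wins true (add (.mk n opt) (conj (.mk n opt))) true) &&
      (wins true (add (.mk n opt) (conj (.mk n opt))) false) &&
      decide (∀ p : Bool, ∀ i : Fin (n p), good (opt p i) = true)

theorem good_iff (G : Game) (h : good G = true) :
    (∀ p, Wins true (add G (conj G)) p) ∧ ∀ p G', Opt p G G' → good G' = true := by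
  rcases G with ⟨n, f⟩
  rw [good] at h
  simp only [Bool.and_eq_true, decide_eq_true_eq] at h
  obtain ⟨⟨h1, h2⟩, h3⟩ := h
  refine ⟨?_, ?_⟩
  · intro p
    cases p with
    | true => exact (wins_eq _ _ _).1 h1
    | false => exact (wins_eq _ _ _).1 h2
  · rintro p _ ⟨i, rfl⟩
    exact h3 p i

theorem good_v : good v = true := by decide +kernel

theorem wins_add_empty (mis : Bool) (X : Game) (hX : ∀ p X', ¬ Opt p X X') :
    ∀ G p, Wins mis (add G X) p ↔ Wins mis G p := by
  intro G
  induction G using ind with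
  | h G ih =>
    intro p
    rw [wins_iff, wins_iff mis G]
    refine or_congr (and_congr Iff.rfl (not_congr ?_)) ?_
    · constructor
      · rintro ⟨K, hK⟩
        rw [opt_add] at hK
        rcases hK with ⟨G', hO, rfl⟩ | ⟨X', hO, rfl⟩
        · exact ⟨G', hO⟩
        · exact absurd hO (hX _ _)
      · rintro ⟨G', hO⟩
        exact ⟨_, (opt_add _ _ _ _).2 (Or.inl ⟨G', hO, rfl⟩)⟩
    · constructor
      · rintro ⟨K, hK, hw⟩
        rw [opt_add] at hK
        rcases hK with ⟨G', hO, rfl⟩ | ⟨X', hO, rfl⟩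
        · exact ⟨G', hO, by rwa [ih p G' hO] at hw⟩
        · exact absurd hO (hX _ _)
      · rintro ⟨G', hO, hw⟩
        exact ⟨_, (opt_add _ _ _ _).2 (Or.inl ⟨G', hO, rfl⟩), by rwa [ih p G' hO]⟩

theorem dicotic_empty {X : Game} (hX : Dicotic X) {p : Bool} (h : ¬ ∃ X', Opt p X X') :
    ∀ q X', ¬ Opt q X X' := by
  rw [dicotic_iff] at hX
  intro q X' hq
  apply h
  cases p <;> cases q
  · exact ⟨X', hq⟩
  · exact hX.1.1 ⟨X', hq⟩
  · exact hX.1.2 ⟨X', hq⟩
  · exact ⟨X', hq⟩

theorem mirror : ∀ G, good G = true → ∀ X, Dicotic X → ∀ p,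
    (Wins true X p → Wins true (add (add G (conj G)) X) p) ∧
    (¬ Wins true X (!p) → ¬ Wins true (add (add G (conj G)) X) (!p)) := by
  intro G
  induction G using ind with
  | h G ihG =>
    intro hG X
    obtain ⟨hN, hF⟩ := good_iff G hG
    induction X using ind with
    | h X ihX =>
      intro hX p
      have hX' := ((dicotic_iff X).1 hX).2
      refine ⟨?_, ?_⟩
      · intro hw
        rw [wins_iff] at hw
        rcases hw with ⟨-, hw⟩ | ⟨X', hO, hw⟩
        · rw [wins_add_empty true X (dicotic_empty hX hw)]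
          exact hN p
        · rw [wins_iff]
          right
          exact ⟨_, (opt_add _ _ _ _).2 (Or.inr ⟨X', hO, rfl⟩),
            (ihX p X' hO (hX' p X' hO) p).2 hw⟩
      · intro hw hw'
        rw [wins_iff] at hw hw'
        push Not at hw
        obtain ⟨hw1, hw2⟩ := hw
        obtain ⟨X0, hX0⟩ := hw1 rfl
        rcases hw' with ⟨-, hw'⟩ | ⟨Y, hY, hw'⟩
        · exact hw' ⟨_, (opt_add _ _ _ _).2 (Or.inr ⟨X0, hX0, rfl⟩)⟩
        · rw [opt_add] at hY
          rcases hY with ⟨Z, hZ, rfl⟩ | ⟨X', hO, rfl⟩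
          · rw [Bool.not_not] at hw'
            apply hw'
            rw [wins_iff]
            right
            rw [opt_add] at hZ
            rcases hZ with ⟨G', hO, rfl⟩ | ⟨H', hO, rfl⟩
            · refine ⟨add (add G' (conj G')) X, ?_, ?_⟩
              · refine (opt_add _ _ _ _).2 (Or.inl ⟨_, ?_, rfl⟩)
                exact (opt_add _ _ _ _).2 (Or.inr ⟨_, (opt_conj _ _ _).2 ⟨G', hO, rfl⟩, rfl⟩)
              · refine (ihG _ G' hO (hF _ _ hO) X hX p).2 ?_
                rw [wins_iff]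
                push Not
                exact ⟨fun _ => ⟨X0, hX0⟩, hw2⟩
            · obtain ⟨G', hO', rfl⟩ := (opt_conj _ _ _).1 hO
              rw [Bool.not_not] at hO'
              refine ⟨add (add G' (conj G')) X, ?_, ?_⟩
              · refine (opt_add _ _ _ _).2 (Or.inl ⟨_, ?_, rfl⟩)
                exact (opt_add _ _ _ _).2 (Or.inl ⟨_, hO', rfl⟩)
              · refine (ihG _ G' hO' (hF _ _ hO') X hX p).2 ?_
                rw [wins_iff]
                push Not
                exact ⟨fun _ => ⟨X0, hX0⟩, hw2⟩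
          · apply hw'
            rw [Bool.not_not]
            have := hw2 X' hO
            rw [Bool.not_not] at this
            exact (ihX _ X' hO (hX' _ X' hO) p).1 this

theorem wins_zero_add (mis : Bool) : ∀ X p, Wins mis (add zero X) p ↔ Wins mis X p := by
  intro X
  induction X using ind with
  | h X ih =>
    intro p
    rw [wins_iff, wins_iff mis X]
    have key : ∀ K, Opt p (add zero X) K ↔ ∃ X', Opt p X X' ∧ K = add zero X' := by
      intro K
      rw [opt_add]
      constructor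
      · rintro (⟨_, ⟨i, -⟩, -⟩ | h)
        · exact i.elim0
        · exact h
      · exact Or.inr
    refine or_congr (and_congr Iff.rfl (not_congr ?_)) ?_
    · constructor
      · rintro ⟨K, hK⟩
        obtain ⟨X', hO, rfl⟩ := (key K).1 hK
        exact ⟨X', hO⟩
      · rintro ⟨X', hO⟩
        exact ⟨_, (key _).2 ⟨X', hO, rfl⟩⟩
    · constructor
      · rintro ⟨K, hK, hw⟩
        obtain ⟨X', hO, rfl⟩ := (key K).1 hK
        exact ⟨X', hO, by rwa [ih p X' hO] at hw⟩
      · rintro ⟨X', hO, hw⟩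
        exact ⟨_, (key _).2 ⟨X', hO, rfl⟩, by rwa [ih p X' hO]⟩

theorem invertible_v : InvertibleDicot v := by
  refine ⟨dicotic_is _ _ _ _ is_v, conj v, dicotic_conj _ (dicotic_is _ _ _ _ is_v), ?_⟩
  intro X hX
  apply outcome_congr
  intro p
  rw [wins_zero_add]
  have h := mirror v good_v X hX p
  have h' := mirror v good_v X hX (!p)
  rw [Bool.not_not] at h'
  constructor
  · intro hw
    by_contra hc
    exact h'.2 hc hw
  · exact h.1

/-- There are an evilly normal pair `(A, K)` and a game in the kernel `K` that is invertible modulo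
the dicotic games. -/
theorem result : ∃ A K : Set Game, IsSetOfForms A ∧ IsSetOfForms K ∧ EvillyNormal A K ∧
    ∃ G ∈ K, InvertibleDicot G := by
  have hAK : ∀ G k n m, Is G k n m → ¬ InS G → 1 ≤ k := by
    intro G k n m h hS
    by_contra hc
    have : k = 0 := by omega
    subst this
    exact hS ⟨n, m, h⟩
  refine ⟨{G | ∃ k n m, Is G k n m}, {G | (∃ k n m, Is G k n m) ∧ ¬ InS G}, ?_, ?_, ?_, v, ?_, ?_⟩
  · rintro G H hI ⟨k, n, m, h⟩
    exact ⟨k, n, m, is_ident _ _ hI _ _ _ h⟩
  · rintro G H hI ⟨⟨k, n, m, h⟩, hS⟩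
    refine ⟨⟨k, n, m, is_ident _ _ hI _ _ _ h⟩, ?_⟩
    rintro ⟨n', m', hH⟩
    apply hS
    refine ⟨n', m', is_ident H G ?_ _ _ _ hH⟩
    clear hH hS h
    revert H
    induction G using ind with
    | h G ih =>
      intro H hI
      rw [ident_iff] at hI ⊢
      intro p
      refine ⟨?_, ?_⟩
      · intro H' hO
        obtain ⟨G', hO', hI'⟩ := (hI p).2 H' hO
        exact ⟨G', hO', ih p G' hO' H' hI'⟩
      · intro G' hO
        obtain ⟨H', hO', hI'⟩ := (hI p).1 G' hO
        exact ⟨H', hO', ih p G' hO H' hI'⟩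
  · refine ⟨?_, ?_, ?_, ⟨?_, ?_, ?_⟩, ?_⟩
    · rintro G ⟨k, n, m, h⟩
      exact dicotic_is _ _ _ _ h
    · rintro G ⟨k, n, m, h⟩ H ⟨a, b, c, h'⟩
      exact ⟨_, _, _, is_add _ _ _ _ _ _ _ _ h h'⟩
    · rintro G ⟨k, n, m, h⟩ p G' hO
      rw [is_iff] at h
      obtain ⟨k', n', m', -, hi⟩ := (h p).1 G' hO
      exact ⟨k', n', m', hi⟩
    · rintro G ⟨h, -⟩
      exact h
    · rintro G ⟨⟨k, n, m, h⟩, hS⟩
      have hk := hAK G k n m h hS
      apply outcome_congr
      intro p
      rw [wins_is _ _ _ _ _ _ h, wins_is _ _ _ _ _ _ h]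
      cases p with
      | true => simp only [W_true]; omega
      | false => simp only [W_false]; omega
    · rintro G ⟨hA, hK⟩
      have hS : InS G := by
        by_contra hc
        exact hK ⟨hA, hc⟩
      obtain ⟨n, m, h⟩ := hS
      have h1 : Is (add G star) 0 n (m + 1) := by
        simpa using is_add _ _ _ _ _ _ _ _ h is_star
      refine ⟨?_, ?_⟩
      · apply outcome_congr
        intro p
        rw [wins_is _ _ _ _ _ _ h, wins_is _ _ _ _ _ _ h1]
        cases p with
        | true => simp only [W_true, Bool.toNat_false, Bool.toNat_true]; omega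
        | false => simp only [W_false, Bool.toNat_false, Bool.toNat_true]; omega
      · apply outcome_congr
        intro p
        rw [wins_is _ _ _ _ _ _ h, wins_is _ _ _ _ _ _ h1]
        cases p with
        | true => simp only [W_true, Bool.toNat_false, Bool.toNat_true]
        | false => simp only [W_false, Bool.toNat_false, Bool.toNat_true]; omega
    · rintro G ⟨k, n, m, h⟩ H ⟨a, b, c, h'⟩
      constructor
      · intro hK
        have hS : InS (add G H) := by
          by_contra hc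
          exact hK ⟨⟨_, _, _, is_add _ _ _ _ _ _ _ _ h h'⟩, hc⟩
        exact ⟨fun hG => hG.2 (inS_left _ _ hS), fun hH => hH.2 (inS_right _ _ hS)⟩
      · rintro ⟨hG, hH⟩ hK
        have h1 : InS G := by
          by_contra hc
          exact hG ⟨⟨_, _, _, h⟩, hc⟩
        have h2 : InS H := by
          by_contra hc
          exact hH ⟨⟨_, _, _, h'⟩, hc⟩
        exact hK.2 (inS_add h1 h2)
  · exact ⟨⟨1, 0, 0, is_v⟩, not_inS_v⟩
  · exact invertible_v

end Pool.Agent.Results.MP_541980_co.InvertibleInKernel
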